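import Pool.Agent.helper60.EPT.Spec

/-!
# Project EPT (MP_2b48c2_lc), row `eth:EVA`: evaluation of quantifier-free formulas in polynomial time
-/

set_option autoImplicit false

namespace Pool.Agent.EPT

open D

/-- the value at `nil` -/
def EVA_a (_ : D) : D := cons nil (cons nil nil)

/-- the list of the values of the variables -/
def EVA_s (x : D) : D := ofList (x.snd.fst.snd.toList.map fun a => look x.snd.snd.snd a)

/-- the truth value of an implication -/
def EVA_i (x : D) : D := tv (tv (x.fst.snd.snd.fst = nil) ≠ nil ∨ x.fst.snd.snd.snd ≠ nil)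

/-- the truth value of an atom -/
def EVA_t (x : D) : D :=
  if tv (x.snd.fst.fst = one) = nil then tv (cons x.snd.fst.fst (EVA_s x) ∈ x.snd.snd.fst.toList)
  else tv ((EVA_s x).fst = (EVA_s x).snd.fst)

/-- the truth value of a formula -/
def EVA_v (x : D) : D := if x.snd.fst.fst = nil then EVA_i x else EVA_t x

/-- one step of the evaluation -/
def EVA_h (x : D) : D := cons (EVA_v x) (cons x.fst.fst.fst x.fst.snd.fst)

theorem EVA_tv_or (P : Prop) [Decidable P] : tv P = nil ∨ tv P = one := by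
  unfold tv
  split_ifs
  · exact Or.inr rfl
  · exact Or.inl rfl

theorem EVA_v_or (x : D) : EVA_v x = nil ∨ EVA_v x = one := by
  unfold EVA_v
  split_ifs
  · exact EVA_tv_or _
  · unfold EVA_t
    split_ifs
    · exact EVA_tv_or _
    · exact EVA_tv_or _

theorem EVA_rc_nil (e : D) : rc EVA_a EVA_h e nil = cons nil (cons nil nil) := rfl

theorem EVA_rc_cons (e l r : D) : rc EVA_a EVA_h e (cons l r) =
    cons (EVA_v (cons (cons (rc EVA_a EVA_h e l) (rc EVA_a EVA_h e r)) (cons (cons l r) e)))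
      (cons (rc EVA_a EVA_h e l).fst (rc EVA_a EVA_h e r).fst) := rfl

theorem EVA_rc_or (e t : D) : (rc EVA_a EVA_h e t).fst = nil ∨ (rc EVA_a EVA_h e t).fst = one := by
  cases t with
  | nil => exact Or.inl rfl
  | cons l r =>
    rw [EVA_rc_cons]
    exact EVA_v_or _

theorem EVA_rc_snd_fst (e t : D) : (rc EVA_a EVA_h e t).snd.fst = (rc EVA_a EVA_h e t.fst).fst := by
  cases t with
  | nil => rfl
  | cons l r => rfl

theorem EVA_rc_snd_snd (e t : D) : (rc EVA_a EVA_h e t).snd.snd = (rc EVA_a EVA_h e t.snd).fst := by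
  cases t with
  | nil => rfl
  | cons l r => rfl

theorem EVA_size_le (x : D) (h : x = nil ∨ x = one) : x.size ≤ 3 := by
  rcases h with rfl | rfl
  · simp
  · unfold one
    simp

theorem EVA_rc_size (e t : D) : (rc EVA_a EVA_h e t).size ≤ 11 := by
  cases t with
  | nil =>
    rw [EVA_rc_nil]
    simp
  | cons l r =>
    rw [EVA_rc_cons]
    have h1 := EVA_size_le _ (EVA_v_or (cons (cons (rc EVA_a EVA_h e l) (rc EVA_a EVA_h e r)) (cons (cons l r) e)))
    have h2 := EVA_size_le _ (EVA_rc_or e l)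
    have h3 := EVA_size_le _ (EVA_rc_or e r)
    rw [size_cons, size_cons]
    omega

theorem EVA_s_FP (hC : Cal) (hL : CalL) : FP EVA_s := by
  have h1 : FP fun y : D => look y.snd y.fst := hL.look (fun y => y.snd) (fun y => y.fst) (hC.snd _ hC.id) (hC.fst _ hC.id)
  exact hL.map (fun y => look y.snd y.fst) (fun x => x.snd.fst.snd) (fun x => x.snd.snd.snd) h1
    (hC.snd _ (hC.fst _ (hC.snd _ hC.id))) (hC.snd _ (hC.snd _ (hC.snd _ hC.id)))

theorem EVA_h_FP (hC : Cal) (hL : CalL) : FP EVA_h := by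
  have hs := EVA_s_FP hC hL
  have hl : FP fun x : D => x.snd.fst.fst := hC.fst _ (hC.fst _ (hC.snd _ hC.id))
  have hi : FP EVA_i := hC.or (fun x => tv (x.fst.snd.snd.fst = nil)) (fun x => x.fst.snd.snd.snd)
    (hC.not (fun x => x.fst.snd.snd.fst) (hC.fst _ (hC.snd _ (hC.snd _ (hC.fst _ hC.id)))))
    (hC.snd _ (hC.snd _ (hC.snd _ (hC.fst _ hC.id))))
  have ht : FP EVA_t := hC.cond (fun x => tv (x.snd.fst.fst = one)) (fun x => tv ((EVA_s x).fst = (EVA_s x).snd.fst))
    (fun x => tv (cons x.snd.fst.fst (EVA_s x) ∈ x.snd.snd.fst.toList))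
    (hC.eq (fun x => x.snd.fst.fst) (fun _ => one) hl (hC.const one))
    (hC.eq (fun x => (EVA_s x).fst) (fun x => (EVA_s x).snd.fst) (hC.fst _ hs) (hC.fst _ (hC.snd _ hs)))
    (hL.mem (fun x => cons x.snd.fst.fst (EVA_s x)) (fun x => x.snd.snd.fst) (hC.cons _ _ hl hs)
      (hC.fst _ (hC.snd _ (hC.snd _ hC.id))))
  have hv : FP EVA_v := hC.cond (fun x => x.snd.fst.fst) EVA_t EVA_i hl ht hi
  exact hC.cons EVA_v (fun x => cons x.fst.fst.fst x.fst.snd.fst) hv
    (hC.cons (fun x => x.fst.fst.fst) (fun x => x.fst.snd.fst) (hC.fst _ (hC.fst _ (hC.fst _ hC.id)))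
      (hC.fst _ (hC.snd _ (hC.fst _ hC.id))))

theorem EVA_corr (F e : D) (t : D) : ((rc EVA_a EVA_h (cons F e) t).fst ≠ nil ↔ Holds F.toList (look e) t) ∧
    ((rc EVA_a EVA_h (cons F e) t.fst).fst ≠ nil ↔ Holds F.toList (look e) t.fst) ∧
    ((rc EVA_a EVA_h (cons F e) t.snd).fst ≠ nil ↔ Holds F.toList (look e) t.snd) := by
  induction t with
  | nil =>
    have h : ((rc EVA_a EVA_h (cons F e) nil).fst ≠ nil ↔ Holds F.toList (look e) nil) := by
      rw [EVA_rc_nil, Holds]
      simp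
    exact ⟨h, h, h⟩
  | cons l r ihl ihr =>
    refine ⟨?_, ihl.1, ihr.1⟩
    rw [EVA_rc_cons, fst_cons]
    cases l with
    | nil =>
      have h1 : EVA_v (cons (cons (rc EVA_a EVA_h (cons F e) nil) (rc EVA_a EVA_h (cons F e) r)) (cons (cons nil r) (cons F e))) =
          tv (tv ((rc EVA_a EVA_h (cons F e) r).snd.fst = nil) ≠ nil ∨ (rc EVA_a EVA_h (cons F e) r).snd.snd ≠ nil) := by
        unfold EVA_v
        exact if_pos rfl
      rw [h1, tv_ne_nil, tv_ne_nil, EVA_rc_snd_fst, EVA_rc_snd_snd]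
      cases r with
      | nil =>
        rw [Holds]
        simp [EVA_rc_nil]
      | cons a b =>
        rw [Holds]
        have h2 := ihr.2.1
        have h3 := ihr.2.2
        rw [fst_cons] at h2 ⊢
        rw [snd_cons] at h3 ⊢
        rw [← h2, ← h3]
        tauto
    | cons a b =>
      have h1 : EVA_v (cons (cons (rc EVA_a EVA_h (cons F e) (cons a b)) (rc EVA_a EVA_h (cons F e) r)) (cons (cons (cons a b) r) (cons F e))) =
          if tv (cons a b = one) = nil then tv (cons (cons a b) (vals (look e) r) ∈ F.toList)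
          else tv ((vals (look e) r).fst = (vals (look e) r).snd.fst) := by
        unfold EVA_v
        exact if_neg (by simp)
      rw [h1, Holds]
      by_cases h2 : cons a b = one
      · rw [if_neg (by rw [tv_eq_nil]; exact fun h => h h2), if_pos h2, tv_ne_nil]
      · rw [if_pos (by rw [tv_eq_nil]; exact h2), if_neg h2, tv_ne_nil]

theorem EVA (hC : Cal) (hL : CalL) : EVA_stmt := by
  refine ⟨fun x => (rc EVA_a EVA_h x.fst x.snd).fst, ?_, ?_⟩
  · refine hC.fst _ (hL.rc EVA_a EVA_h (hC.const _) (EVA_h_FP hC hL) ⟨11, fun e t => ?_⟩ (fun x => x.snd) (fun x => x.fst)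
      (hC.snd _ hC.id) (hC.fst _ hC.id))
    refine le_trans (EVA_rc_size e t) ?_
    calc 11 ≤ t.size + e.size + 11 := Nat.le_add_left _ _
      _ = (t.size + e.size + 11) ^ 1 := (pow_one _).symm
      _ ≤ (t.size + e.size + 11) ^ 11 := Nat.pow_le_pow_right (by omega) (by norm_num)
  · intro F e ψ
    exact (EVA_corr F e ψ).1

end Pool.Agent.EPT
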